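import Pool.Agent.H211.HY.Stm2
import Pool.Graph.R_seed8.H790R3.RB.TWR
import Pool.Graph.R_seed8.Y298.CE.Kmar

/-! Task HIT of project HY (helper211), by helper734: the hit lemma on the sphere. -/

set_option autoImplicit false

open Topology Filter Metric Set MeasureTheory Polynomial

namespace Pool.Agent.H734.HY211

open Pool.Agent.H790R3.RB
open Pool.Agent.H211.HY
open Pool.Agent.W746.LD (Univ KC exists_KC)
open Pool.Agent.Y298.SH.CE (MG RR exists_MG)

/-- a lower bound over a finite set -/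
theorem fin_min {ι : Type} (s : Finset ι) (F : ι → ℝ) (a : ℝ) (h : ∀ c ∈ s, a < F c) :
    ∃ m > a, ∀ c ∈ s, m ≤ F c := by
  classical
  induction s using Finset.induction_on with
  | empty => exact ⟨a + 1, by linarith, by simp⟩
  | insert b s _ ih =>
    obtain ⟨m, hm, hms⟩ := ih fun c hc => h c (Finset.mem_insert_of_mem hc)
    refine ⟨min m (F b), lt_min hm (h b (Finset.mem_insert_self b s)), fun c hc => ?_⟩
    rcases Finset.mem_insert.1 hc with rfl | hc
    · exact min_le_right _ _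
    · exact (min_le_left _ _).trans (hms c hc)

theorem N2_pos {p : ℂ × ℂ} (hp : p ≠ 0) : 0 < N2 p := by
  unfold N2
  by_contra h
  have h1 : ‖p.1‖ ^ 2 = 0 := by nlinarith [sq_nonneg ‖p.1‖, sq_nonneg ‖p.2‖]
  have h2 : ‖p.2‖ ^ 2 = 0 := by nlinarith [sq_nonneg ‖p.1‖, sq_nonneg ‖p.2‖]
  apply hp
  ext
  · simpa using h1
  · simpa using h2

theorem N2_smul (a : ℂ) (p : ℂ × ℂ) : N2 (a • p) = ‖a‖ ^ 2 * N2 p := by
  unfold N2
  simp only [Prod.smul_fst, Prod.smul_snd, smul_eq_mul, norm_mul, mul_pow]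
  ring

theorem par_rep (p : ℂ × ℂ) : p = (if p.2 = 0 then p.1 else p.2) •
    (if p.2 = 0 then ((1 : ℂ), (0 : ℂ)) else (p.1 / p.2, (1 : ℂ))) := by
  by_cases h2 : p.2 = 0
  · rw [if_pos h2, if_pos h2]
    ext
    · simp
    · simp [h2]
  · rw [if_neg h2, if_neg h2]
    ext
    · simp only [Prod.smul_fst, smul_eq_mul]
      field_simp
    · simp

/-- uniform Collet-Eckmann constants -/
theorem uce {d : ℕ} (x : CV d) (hd : 2 ≤ d) (hx : ND x) (hce : CE x)
    (hsd : ∀ (n : ℕ) (p : ℂ × ℂ) (a : ℂ), a ≠ 0 → p ≠ 0 → sdn x n (a • p) = sdn x n p) :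
    ∃ C > (0 : ℝ), ∃ μ > (1 : ℝ), ∀ c : ℂ × ℂ, c ≠ 0 → wr x c = 0 → ∀ n : ℕ,
      C * μ ^ n ≤ sdn x n (hF x c) := by
  classical
  obtain ⟨hw1, ⟨W, -, hW, hWc⟩, -⟩ := WR d x hd
  -- the Jacobian is not identically zero
  have hW0 : W ≠ 0 := by
    intro hW0
    have h10 : wr x (1, 0) = 0 := by rw [← hWc, hW0, Polynomial.coeff_zero]
    have hz1 : ∀ ζ : ℂ, wr x (ζ, 1) = 0 := fun ζ => by rw [← hW, hW0, Polynomial.eval_zero]
    have hall : ∀ p : ℂ × ℂ, wr x p = 0 := by
      intro p
      rw [par_rep p, hw1]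
      by_cases h2 : p.2 = 0
      · rw [if_pos h2, if_pos h2, h10, mul_zero]
      · rw [if_neg h2, if_neg h2, hz1, mul_zero]
    obtain ⟨C, hC, μ, hμ, h⟩ := hce (1, 0) (by simp) h10
    have h1 := h 1
    have h2 : sdn x 1 (hF x (1, 0)) = 0 := by
      unfold sdn sd
      rw [Finset.prod_range_one, Function.iterate_zero, id, hall, norm_zero, zero_mul, zero_div]
    rw [h2, pow_one] at h1
    have h3 : 0 < C * μ := by positivity
    linarith
  choose! Cf hCf μf hμf hf using hce
  set s : Finset (ℂ × ℂ) := (insert ((1 : ℂ), (0 : ℂ))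
    (W.roots.toFinset.image fun ζ => (ζ, (1 : ℂ)))).filter (fun p => wr x p = 0) with hs
  have hs0 : ∀ p ∈ s, p ≠ 0 ∧ wr x p = 0 := by
    intro p hp
    rw [hs, Finset.mem_filter, Finset.mem_insert, Finset.mem_image] at hp
    refine ⟨?_, hp.2⟩
    rcases hp.1 with h | ⟨ζ, -, h⟩
    · rw [h]
      simp
    · rw [← h]
      simp
  obtain ⟨C, hC, hCs⟩ := fin_min s Cf 0 (fun p hp => hCf p (hs0 p hp).1 (hs0 p hp).2)
  obtain ⟨μ, hμ, hμs⟩ := fin_min s μf 1 (fun p hp => hμf p (hs0 p hp).1 (hs0 p hp).2)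
  refine ⟨C, hC, μ, hμ, fun c hc0 hc n => ?_⟩
  -- a representative
  obtain ⟨p, hps, a, ha, hcp⟩ : ∃ p ∈ s, ∃ a : ℂ, a ≠ 0 ∧ c = a • p := by
    have h1 := par_rep c
    by_cases h2 : c.2 = 0
    · rw [if_pos h2, if_pos h2] at h1
      have ha : c.1 ≠ 0 := by
        intro h3
        exact hc0 (Prod.ext h3 h2)
      refine ⟨(1, 0), ?_, c.1, ha, h1⟩
      rw [hs, Finset.mem_filter]
      refine ⟨Finset.mem_insert_self _ _, ?_⟩
      rw [h1, hw1] at hc
      rcases mul_eq_zero.1 hc with h3 | h3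
      · exact absurd ((pow_eq_zero_iff (show 2 * d - 2 ≠ 0 by omega)).1 h3) ha
      · exact h3
    · rw [if_neg h2, if_neg h2] at h1
      refine ⟨(c.1 / c.2, 1), ?_, c.2, h2, h1⟩
      have h4 : wr x (c.1 / c.2, 1) = 0 := by
        rw [h1, hw1] at hc
        rcases mul_eq_zero.1 hc with h3 | h3
        · exact absurd ((pow_eq_zero_iff (show 2 * d - 2 ≠ 0 by omega)).1 h3) h2
        · exact h3
      rw [hs, Finset.mem_filter]
      refine ⟨Finset.mem_insert_of_mem (Finset.mem_image.2 ⟨c.1 / c.2, ?_, rfl⟩), h4⟩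
      rw [Multiset.mem_toFinset, Polynomial.mem_roots hW0, Polynomial.IsRoot.def, hW]
      exact h4
  obtain ⟨hp0, hpw⟩ := hs0 p hps
  have hFp : hF x p ≠ 0 := fun h => hp0 (hx p h)
  rw [hcp, hF_smul, hsd n (hF x p) (a ^ d) (pow_ne_zero _ ha) hFp]
  refine le_trans ?_ (hf p hp0 hpw n)
  have h1 := hCs p hps
  have h2 := hμs p hps
  have h3 : μ ^ n ≤ μf p ^ n := pow_le_pow_left₀ (by linarith) h2 n
  have h4 : 0 ≤ μ ^ n := by positivity
  exact mul_le_mul h1 h3 h4 (by linarith)

theorem cr_deriv {g : ℂ → ℂ × ℂ} {u : ℂ} (hg : DifferentiableAt ℂ g u) (v : ℂ × ℂ) :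
    HasDerivAt (fun w => cr (g w) v) (cr (deriv g u) v) u := by
  have h1 : HasDerivAt (fun w => (g w).1) (deriv g u).1 u :=
    (hasFDerivAt_fst (𝕜 := ℂ) (E := ℂ) (F := ℂ) (p := g u)).comp_hasDerivAt u hg.hasDerivAt
  have h2 : HasDerivAt (fun w => (g w).2) (deriv g u).2 u :=
    (hasFDerivAt_snd (𝕜 := ℂ) (E := ℂ) (F := ℂ) (p := g u)).comp_hasDerivAt u hg.hasDerivAt
  unfold cr
  exact (h1.mul_const v.2).sub (h2.mul_const v.1)

/-- the speed of a map parallel to `(w, 1)` -/
theorem spd_le {F : ℂ → ℂ × ℂ} {y : ℂ} {r : ℝ} (hF : DifferentiableOn ℂ F (ball y r))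
    (h0 : ∀ w ∈ ball y r, F w ≠ 0 ∧ cr (F w) (w, 1) = 0) {u : ℂ} (hu : u ∈ ball y r) :
    spd F u ≤ 1 := by
  have hd : DifferentiableAt ℂ F u := hF.differentiableAt (isOpen_ball.mem_nhds hu)
  have h1 : HasDerivAt (fun w => (F w).1) (deriv F u).1 u :=
    (hasFDerivAt_fst (𝕜 := ℂ) (E := ℂ) (F := ℂ) (p := F u)).comp_hasDerivAt u hd.hasDerivAt
  have h2 : HasDerivAt (fun w => (F w).2) (deriv F u).2 u :=
    (hasFDerivAt_snd (𝕜 := ℂ) (E := ℂ) (F := ℂ) (p := F u)).comp_hasDerivAt u hd.hasDerivAt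
  have h3 : HasDerivAt (fun w => (F w).2 * w) ((deriv F u).2 * u + (F u).2 * 1) u :=
    h2.mul (hasDerivAt_id u)
  have h4 : (fun w => (F w).2 * w) =ᶠ[𝓝 u] (fun w => (F w).1) := by
    filter_upwards [isOpen_ball.mem_nhds hu] with w hw
    have h5 := (h0 w hw).2
    unfold cr at h5
    simp only [mul_one] at h5
    exact (sub_eq_zero.1 h5).symm
  have h5 : (deriv F u).1 = (deriv F u).2 * u + (F u).2 * 1 :=
    (h1.congr_of_eventuallyEq h4).unique h3
  have h6 := (h0 u hu).2
  unfold cr at h6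
  simp only [mul_one] at h6
  have h7 : (F u).1 = (F u).2 * u := sub_eq_zero.1 h6
  have h8 : cr (deriv F u) (F u) = (F u).2 ^ 2 := by
    unfold cr
    rw [h5, h7]
    ring
  have hN := N2_pos (h0 u hu).1
  unfold spd
  rw [div_le_one hN, h8, norm_pow]
  unfold N2
  have := sq_nonneg ‖(F u).1‖
  linarith

theorem cho_norm {p q : ℂ × ℂ} (hp : p ≠ 0) (hq : q ≠ 0) :
    ‖cr p q‖ = cho p q * (Real.sqrt (N2 p) * Real.sqrt (N2 q)) := by
  have h1 := N2_pos hp
  have h2 := N2_pos hq
  unfold cho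
  rw [Real.sqrt_mul h1.le]
  have h3 : 0 < Real.sqrt (N2 p) := Real.sqrt_pos.2 h1
  have h4 : 0 < Real.sqrt (N2 q) := Real.sqrt_pos.2 h2
  field_simp

/-- comparison of the chordal distance with the coordinate `cr p v / cr p q` -/
theorem cho_coord {p v q : ℂ × ℂ} (hp : p ≠ 0) (hv : v ≠ 0) (hq : q ≠ 0) (hpq : cr p q ≠ 0)
    (h1 : cho p q ≤ 1) :
    cho p v * Real.sqrt (N2 v) ≤ ‖cr p v / cr p q‖ * Real.sqrt (N2 q) := by
  have e1 := cho_norm hp hv
  have e2 := cho_norm hp hq
  have s1 : 0 < Real.sqrt (N2 p) := Real.sqrt_pos.2 (N2_pos hp)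
  have s2 : 0 < Real.sqrt (N2 v) := Real.sqrt_pos.2 (N2_pos hv)
  have s3 : 0 < Real.sqrt (N2 q) := Real.sqrt_pos.2 (N2_pos hq)
  have e3 : 0 < ‖cr p q‖ := norm_pos_iff.2 hpq
  have e4 : ‖cr p q‖ ≤ Real.sqrt (N2 p) * Real.sqrt (N2 q) := by
    rw [e2]
    have : 0 < Real.sqrt (N2 p) * Real.sqrt (N2 q) := by positivity
    nlinarith
  rw [norm_div, e1]
  rw [div_mul_eq_mul_div, le_div_iff₀ e3]
  have e5 : 0 ≤ cho p v * Real.sqrt (N2 v) := by
    unfold cho
    positivity
  calc cho p v * Real.sqrt (N2 v) * ‖cr p q‖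
      ≤ cho p v * Real.sqrt (N2 v) * (Real.sqrt (N2 p) * Real.sqrt (N2 q)) :=
        mul_le_mul_of_nonneg_left e4 e5
    _ = _ := by ring

/-- the derivative of the coordinate at a zero -/
theorem coord_deriv {g : ℂ → ℂ × ℂ} {u : ℂ} (hg : DifferentiableAt ℂ g u) (hgu : g u ≠ 0)
    {v q : ℂ × ℂ} (hv : v ≠ 0) (huv : cr (g u) v = 0) (huq : cr (g u) q ≠ 0) :
    ‖deriv (fun w => cr (g w) v / cr (g w) q) u‖ = spd g u * N2 v / ‖cr v q‖ := by
  obtain ⟨a, ha, hav⟩ := (cr_eq_zero_iff hgu hv).1 huv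
  have h1 := (cr_deriv hg v).div (cr_deriv hg q) huq
  have h2 : deriv (fun w => cr (g w) v / cr (g w) q) u = cr (deriv g u) v / cr (g u) q := by
    have h3 : deriv (fun w => cr (g w) v / cr (g w) q) u = _ := h1.deriv
    rw [h3, huv, zero_mul, sub_zero, sq]
    exact mul_div_mul_right _ _ huq
  have hvq : cr v q ≠ 0 := by
    intro h
    apply huq
    rw [hav, cr_smul_left, h, mul_zero]
  have ha' : ‖a‖ ≠ 0 := norm_ne_zero_iff.2 ha
  have hvq' : ‖cr v q‖ ≠ 0 := norm_ne_zero_iff.2 hvq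
  have hN := (N2_pos hv).ne'
  rw [h2]
  unfold spd
  rw [hav, cr_smul_left, cr_smul_right, N2_smul, norm_div, norm_mul, norm_mul]
  field_simp

theorem t_HIT (hCHO : S_CHO) (hLIFT : S_LIFT) (hLSS : S_LSS) (hOMIT : S_OMIT) : S_HIT := by
  intro d x hd hx hce hleo
  obtain ⟨-, hcb, hcz, hcs, hall⟩ := hCHO
  obtain ⟨hspd, hsdn, -, -, -⟩ := hall d x hd hx
  obtain ⟨C₁, hC₁, μ, hμ, hce'⟩ := uce x hd hx hce hsdn
  obtain ⟨C₂, hC₂, s₀, hs₀, hls⟩ := hLSS d x hd hx
  obtain ⟨R₂, hR₂, hom⟩ := hOMIT d x hd hx hleo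
  obtain ⟨C0, c0, KK⟩ := exists_KC
  obtain ⟨θ, hθ1, hθμ⟩ : ∃ θ : ℝ, 1 < θ ∧ θ < μ := exists_between hμ
  obtain ⟨τ, A, G⟩ := exists_MG KK hθ1
  have hA : 0 < A := lt_of_lt_of_le one_pos G.A1
  have hθ0 : 0 < θ := by linarith
  have hμ0 : 0 < μ := by linarith
  have hκ0 : 0 < θ / μ := by positivity
  have hκ1 : θ / μ < 1 := by rw [div_lt_one hμ0]; exact hθμ
  refine ⟨C₂ * (8 * A / C₁), by positivity, θ / μ, hκ0, hκ1, min (R₂ / 2) (s₀ * C₁ / (16 * A)),
    by positivity, ?_⟩
  intro R hR hRR n z y hzy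
  have hR2 : 2 * R ≤ R₂ := by
    have := hRR.trans (min_le_left _ _)
    linarith
  have hRs : 8 * A / C₁ * R < s₀ := by
    have h1 : R ≤ s₀ * C₁ / (16 * A) := hRR.trans (min_le_right _ _)
    rw [le_div_iff₀ (by positivity)] at h1
    rw [div_mul_eq_mul_div, div_lt_iff₀ hC₁]
    have h2 : 0 < s₀ * C₁ := by positivity
    linarith
  have hz1 : ((z, 1) : ℂ × ℂ) ≠ 0 := by simp
  set Hit : ℕ → Prop := fun j => ∃ c : ℂ × ℂ, c ≠ 0 ∧ wr x c = 0 ∧
        cho ((hF x)^[n - 1 - j] (z, 1)) c ^ d ≤ C₂ * (8 * A / C₁) * R * (θ / μ) ^ j with hHit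
  have key : ∀ j ≤ n, (∃ g, Br x j y (RR R τ j) g ∧ cr (g y) ((hF x)^[n - j] (z, 1)) = 0) ∨
      ∃ i < n, Hit i := by
    intro j
    induction j with
    | zero =>
      intro _
      refine Or.inl ⟨fun w => (w, 1), ⟨?_, fun w _ => ⟨by simp, ?_⟩⟩, ?_⟩
      · exact (differentiable_id.prodMk (differentiable_const 1)).differentiableOn
      · exact cr_self _
      · rw [cr_comm, Nat.sub_zero, hzy, neg_zero]
    | succ j ih =>
      intro hj
      rcases ih (by omega) with ⟨g, hg, hgw⟩ | hhit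
      swap
      · exact Or.inr hhit
      have hsub : ball y (RR R τ (j + 1)) ⊆ ball y (RR R τ j) := G.RR_ball hR j y
      have hRRp : 0 < RR R τ (j + 1) := G.RR_pos hR (j + 1)
      have hw1 : y ∈ ball y (RR R τ (j + 1)) := mem_ball_self hRRp
      have hb2 : ∀ k, ∀ w ∈ ball y (RR R τ k), ‖w - y‖ < 2 * R := by
        intro k w hw
        rw [mem_ball, dist_eq_norm] at hw
        exact hw.trans_le (G.RR_le hR k)
      have hb3 : ∀ w ∈ ball y (RR R τ j), w ∈ ball y R₂ := by
        intro w hw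
        rw [mem_ball, dist_eq_norm]
        exact (hb2 j w hw).trans_le hR2
      -- the next point
      set z₁ : ℂ × ℂ := (hF x)^[n - 1 - j] (z, 1) with hz₁
      have hz₁0 : z₁ ≠ 0 := hx.iter_ne _ hz1
      have hfz₁ : hF x z₁ = (hF x)^[n - j] (z, 1) := by
        rw [hz₁, ← Function.iterate_succ_apply' (hF x), Nat.succ_eq_add_one,
          show n - 1 - j + 1 = n - j by omega]
      have hfz0 : hF x z₁ ≠ 0 := fun h => hz₁0 (hx _ h)
      have hgz : cr (g y) (hF x z₁) = 0 := by rw [hfz₁]; exact hgw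
      -- extension by one step
      have hext : ∀ G' : ℂ → ℂ × ℂ, DifferentiableOn ℂ G' (ball y (RR R τ (j + 1))) →
          (∀ w ∈ ball y (RR R τ (j + 1)), G' w ≠ 0 ∧ cr (hF x (G' w)) (g w) = 0) →
          Br x (j + 1) y (RR R τ (j + 1)) G' := by
        intro G' h1 h2
        refine ⟨h1, fun w hw => ⟨(h2 w hw).1, ?_⟩⟩
        rw [Function.iterate_succ_apply]
        have h3 : hF x (G' w) ≠ 0 := fun h => (h2 w hw).1 (hx _ h)
        have h4 := (hg.2 w (hsub hw)).1
        exact cr_trans (hx.iter_ne j h4) (cr_iter x j h3 h4 (h2 w hw).2) (hg.2 w (hsub hw)).2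
      by_cases hcase : ∃ c : ℂ × ℂ, c ≠ 0 ∧ wr x c = 0 ∧ ∃ u ∈ ball y (RR R τ (j + 1)),
          cr (g u) (hF x c) = 0
      · obtain ⟨c, hc0, hc, u, hu1, hgu⟩ := hcase
        have huj : u ∈ ball y (RR R τ j) := hsub hu1
        set v : ℂ × ℂ := hF x c with hv
        have hv0 : v ≠ 0 := fun h => hc0 (hx _ h)
        obtain ⟨q, hq0, hqv, hq⟩ := hom j y v hv0
        have hgq : ∀ w ∈ ball y (RR R τ j), cr (g w) q ≠ 0 := by
          intro w hw h
          obtain ⟨h1, h2⟩ := hg.2 w hw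
          refine hq w (hb3 w hw) ?_
          have h3 : cr q (g w) = 0 := by rw [cr_comm, h, neg_zero]
          exact cr_trans (hx.iter_ne j h1) (cr_iter x j hq0 h1 h3) h2
        have hqv0 : cr q v ≠ 0 := by
          intro h
          have h1 := (hcz q v hq0 hv0).2 h
          rw [h1] at hqv
          norm_num at hqv
        set h : ℂ → ℂ := fun w => cr (g w) v / cr (g w) q with hh
        have hgd : ∀ w ∈ ball y (RR R τ j), DifferentiableAt ℂ g w := fun w hw =>
          hg.1.differentiableAt (isOpen_ball.mem_nhds hw)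
        have huniv : Univ h y (RR R τ j) := by
          refine ⟨fun w hw => ?_, ?_⟩
          · exact ((cr_deriv (hgd w hw) v).div (cr_deriv (hgd w hw) q)
              (hgq w hw)).differentiableAt.differentiableWithinAt
          · intro w hw w₂ hw₂ he
            have he' : cr (g w) v / cr (g w) q = cr (g w₂) v / cr (g w₂) q := he
            set t : ℂ := cr (g w) v / cr (g w) q with ht
            have e1 : cr (g w) v = t * cr (g w) q := by
              rw [ht, div_mul_cancel₀ _ (hgq w hw)]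
            have e2 : cr (g w₂) v = t * cr (g w₂) q := by
              rw [he', div_mul_cancel₀ _ (hgq w₂ hw₂)]
            set m : ℂ × ℂ := (v.1 - t * q.1, v.2 - t * q.2) with hm
            have e3 : cr (g w) m = 0 := by
              have : cr (g w) m = cr (g w) v - t * cr (g w) q := by
                rw [hm]
                unfold cr
                ring
              rw [this, e1, sub_self]
            have e4 : cr m (g w₂) = 0 := by
              have : cr m (g w₂) = -(cr (g w₂) v - t * cr (g w₂) q) := by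
                rw [hm]
                unfold cr
                ring
              rw [this, e2, sub_self, neg_zero]
            have e5 : m ≠ 0 := by
              intro h0
              apply hqv0
              have h1 : m.1 = 0 := by rw [h0]; rfl
              have h2 : m.2 = 0 := by rw [h0]; rfl
              have h3 : v.1 = t * q.1 := sub_eq_zero.1 h1
              have h4 : v.2 = t * q.2 := sub_eq_zero.1 h2
              unfold cr
              rw [h3, h4]
              ring
            have e6 : cr (g w) (g w₂) = 0 := cr_trans e5 e3 e4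
            obtain ⟨a1, a2⟩ := hg.2 w hw
            obtain ⟨b1, b2⟩ := hg.2 w₂ hw₂
            have e7 := cr_iter x j a1 b1 e6
            have a3 : cr (w, 1) ((hF x)^[j] (g w)) = 0 := by rw [cr_comm, a2, neg_zero]
            have e8 : cr (w, 1) (w₂, 1) = 0 :=
              cr_trans (hx.iter_ne j a1) a3 (cr_trans (hx.iter_ne j b1) e7 b2)
            unfold cr at e8
            simp only [mul_one, one_mul] at e8
            exact sub_eq_zero.1 e8
        -- the derivative
        have hgu0 := (hg.2 u huj).1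
        have hder : ‖deriv h u‖ = spd g u * N2 v / ‖cr v q‖ :=
          coord_deriv (hgd u huj) hgu0 hv0 hgu (hgq u huj)
        have hspd0 : 0 ≤ spd g u := by
          unfold spd
          have := (N2_pos hgu0).le
          positivity
        have hsp1 : C₁ * μ ^ j * spd g u ≤ 1 := by
          have h1 := hspd g u j (hgd u huj) hgu0
          have h2 : spd (fun w => (hF x)^[j] (g w)) u ≤ 1 := by
            refine spd_le (y := y) (r := RR R τ j) ?_ (fun w hw => ⟨?_, (hg.2 w hw).2⟩) huj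
            · intro w hw
              have h3 : DifferentiableAt ℂ (fun q : CV d × (ℂ × ℂ) => (hF q.1)^[j] q.2) (x, g w) :=
                hF_iter_differentiable d j (x, g w)
              have h4 : DifferentiableAt ℂ (fun w => (x, g w)) w :=
                (differentiableAt_const x).prodMk (hgd w hw)
              exact (DifferentiableAt.comp w h3 h4).differentiableWithinAt
            · exact hx.iter_ne j (hg.2 w hw).1
          rw [h1] at h2
          obtain ⟨a, ha, hav⟩ := (cr_eq_zero_iff hgu0 hv0).1 hgu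
          rw [hav, hsdn j v a ha hv0] at h2
          have h3 := hce' c hc0 hc j
          calc C₁ * μ ^ j * spd g u ≤ sdn x j v * spd g u :=
                mul_le_mul_of_nonneg_right h3 hspd0
            _ ≤ 1 := h2
        have hup : ∀ w ∈ ball y (RR R τ (j + 1)), cho (g w) v ≤ 8 * A / C₁ * R * (θ / μ) ^ j := by
          intro w hw
          have h1 := G.upper KK hR huniv hw hu1
          have h2 : h u = 0 := by
            rw [hh]
            change cr (g u) v / cr (g u) q = 0
            rw [hgu, zero_div]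
          rw [h2, sub_zero, hder] at h1
          have h3 : ‖w - u‖ ≤ 4 * R := by
            have h3 := hb2 _ w hw
            have h4 := hb2 _ u hu1
            calc ‖w - u‖ = ‖(w - y) - (u - y)‖ := by congr 1; ring
              _ ≤ ‖w - y‖ + ‖u - y‖ := norm_sub_le _ _
              _ ≤ 4 * R := by linarith
          have hgw0 := (hg.2 w (hsub hw)).1
          have h5 := cho_coord hgw0 hv0 hq0 (hgq w (hsub hw)) (hcb _ _).2.2
          have s2 : 0 < Real.sqrt (N2 v) := Real.sqrt_pos.2 (N2_pos hv0)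
          have s3 : 0 < Real.sqrt (N2 q) := Real.sqrt_pos.2 (N2_pos hq0)
          have hNv := N2_pos hv0
          have h6 : 1 / 2 * (Real.sqrt (N2 q) * Real.sqrt (N2 v)) ≤ ‖cr v q‖ := by
            have h7 : ‖cr v q‖ = ‖cr q v‖ := by rw [cr_comm, norm_neg]
            rw [h7, cho_norm hq0 hv0]
            exact mul_le_mul_of_nonneg_right hqv (by positivity)
          have hcr0 : 0 < ‖cr v q‖ := lt_of_lt_of_le (by positivity) h6
          -- the bound for the coordinate
          have h8 : spd g u * N2 v / ‖cr v q‖ * Real.sqrt (N2 q) ≤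
              2 * spd g u * Real.sqrt (N2 v) := by
            rw [div_mul_eq_mul_div, div_le_iff₀ hcr0]
            have h9 : N2 v = Real.sqrt (N2 v) * Real.sqrt (N2 v) :=
              (Real.mul_self_sqrt hNv.le).symm
            calc spd g u * N2 v * Real.sqrt (N2 q)
                = 2 * spd g u * Real.sqrt (N2 v) *
                    (1 / 2 * (Real.sqrt (N2 q) * Real.sqrt (N2 v))) := by
                  nth_rewrite 1 [h9]
                  ring
              _ ≤ _ := mul_le_mul_of_nonneg_left h6 (by positivity)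
          have h10 : cho (g w) v * Real.sqrt (N2 v) ≤
              (8 * A * θ ^ j * R * spd g u) * Real.sqrt (N2 v) := by
            have hθj : 0 < θ ^ j := by positivity
            have hD0 : 0 ≤ spd g u * N2 v / ‖cr v q‖ := by positivity
            calc cho (g w) v * Real.sqrt (N2 v) ≤ ‖h w‖ * Real.sqrt (N2 q) := h5
              _ ≤ (A * θ ^ j * (spd g u * N2 v / ‖cr v q‖) * ‖w - u‖) * Real.sqrt (N2 q) :=
                  mul_le_mul_of_nonneg_right h1 s3.le
              _ ≤ (A * θ ^ j * (spd g u * N2 v / ‖cr v q‖) * (4 * R)) * Real.sqrt (N2 q) := by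
                  gcongr
              _ = A * θ ^ j * (4 * R) * (spd g u * N2 v / ‖cr v q‖ * Real.sqrt (N2 q)) := by ring
              _ ≤ A * θ ^ j * (4 * R) * (2 * spd g u * Real.sqrt (N2 v)) :=
                  mul_le_mul_of_nonneg_left h8 (by positivity)
              _ = _ := by ring
          have h11 : cho (g w) v ≤ 8 * A * θ ^ j * R * spd g u := le_of_mul_le_mul_right h10 s2
          refine h11.trans ?_
          have hμj : 0 < μ ^ j := by positivity
          have h12 : spd g u ≤ 1 / (C₁ * μ ^ j) := by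
            rw [le_div_iff₀ (by positivity)]
            linarith
          calc 8 * A * θ ^ j * R * spd g u ≤ 8 * A * θ ^ j * R * (1 / (C₁ * μ ^ j)) :=
                mul_le_mul_of_nonneg_left h12 (by positivity)
            _ = 8 * A / C₁ * R * (θ / μ) ^ j := by
                rw [div_pow]
                field_simp
        have hsm : 8 * A / C₁ * R * (θ / μ) ^ j < s₀ := by
          have h1 : (θ / μ) ^ j ≤ 1 := pow_le_one₀ hκ0.le hκ1.le
          calc 8 * A / C₁ * R * (θ / μ) ^ j ≤ 8 * A / C₁ * R * 1 :=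
                mul_le_mul_of_nonneg_left h1 (by positivity)
            _ = 8 * A / C₁ * R := mul_one _
            _ < s₀ := hRs
        have hcho1 : cho (hF x z₁) v = cho (g y) v := by
          have hgy0 := (hg.2 y (hsub hw1)).1
          obtain ⟨a, ha, hav⟩ := (cr_eq_zero_iff hgy0 hfz0).1 hgz
          have h1 := hcs (hF x z₁) v a 1 ha one_ne_zero
          rw [one_smul] at h1
          rw [hav, h1]
        have hchob : cho (hF x z₁) v ≤ 8 * A / C₁ * R * (θ / μ) ^ j := by
          rw [hcho1]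
          exact hup y hw1
        rcases hls z₁ c hz₁0 hc0 hc (hchob.trans_lt hsm) with ⟨c', hc'0, hc', hb⟩ | hlift
        · right
          refine ⟨j, by omega, c', hc'0, hc', hb.trans ?_⟩
          calc C₂ * cho (hF x z₁) (hF x c) ≤ C₂ * (8 * A / C₁ * R * (θ / μ) ^ j) :=
                mul_le_mul_of_nonneg_left hchob hC₂.le
            _ = _ := by ring
        · left
          obtain ⟨G', hG'1, hG'2, hG'3⟩ := hlift g y (RR R τ (j + 1)) hRRp (hg.1.mono hsub)
            (fun w hw => ⟨(hg.2 w (hsub hw)).1, (hup w hw).trans_lt hsm⟩) hgz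
          refine ⟨G', hext G' hG'1 hG'2, ?_⟩
          rw [show n - (j + 1) = n - 1 - j by omega]
          exact hG'3
      · -- no critical value
        left
        obtain ⟨G', hG'1, hG'2, hG'3⟩ := hLIFT d x hd hx g y (RR R τ (j + 1)) hRRp
          (hg.1.mono hsub) (fun w hw => (hg.2 w (hsub hw)).1) (by
            intro w hw q hq0 hq hwr
            refine hcase ⟨q, hq0, hwr, w, hw, ?_⟩
            rw [cr_comm, hq, neg_zero]) z₁ hz₁0 (by rw [cr_comm, hgz, neg_zero])
        refine ⟨G', hext G' hG'1 hG'2, ?_⟩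
        rw [show n - (j + 1) = n - 1 - j by omega]
        exact hG'3
  rcases key n le_rfl with ⟨g, hg, hgw⟩ | ⟨i, hi, hhit⟩
  · left
    have hsub : ball y R ⊆ ball y (RR R τ n) := ball_subset_ball (G.RR_gt hR n).le
    refine ⟨g, ⟨hg.1.mono hsub, fun w hw => hg.2 w (hsub hw)⟩, ?_⟩
    rw [Nat.sub_self] at hgw
    exact hgw
  · exact Or.inr ⟨i, hi, hhit⟩

end Pool.Agent.H734.HY211
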